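import Mathlib
import Pool.Agent.Helper17.SO.Stmts

set_option autoImplicit false

/-! Module BH. -/

open Finset

namespace Pool.Agent.Helper17.SO

open Classical in
/-- indicator of the classes -/
noncomputable def bhI (Ω : (l : ℕ) → Finset (ZMod l)) (D : Finset ℕ) (t : ℕ) : ℝ :=
  if ∀ l ∈ D, (t : ZMod l) ∈ Ω l then 1 else 0

theorem bhI_union (Ω : (l : ℕ) → Finset (ZMod l)) (D E : Finset ℕ) (t : ℕ) :
    bhI Ω (D ∪ E) t = bhI Ω D t * bhI Ω E t := by
  classical
  unfold bhI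
  by_cases h1 : ∀ l ∈ D, (t : ZMod l) ∈ Ω l
  · by_cases h2 : ∀ l ∈ E, (t : ZMod l) ∈ Ω l
    · rw [if_pos h1, if_pos h2, if_pos, mul_one]
      intro l hl
      rcases Finset.mem_union.1 hl with h | h
      · exact h1 l h
      · exact h2 l h
    · rw [if_neg h2, if_neg, mul_zero]
      intro h
      exact h2 fun l hl => h l (Finset.mem_union_right _ hl)
  · rw [if_neg h1, if_neg, zero_mul]
    intro h
    exact h1 fun l hl => h l (Finset.mem_union_left _ hl)

/-- the truncated sum for one block -/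
noncomputable def bhT (Ω : (l : ℕ) → Finset (ZMod l)) (P : ℕ → Finset ℕ) (b : ℕ → ℕ) (j t : ℕ) :
    ℝ :=
  ∑ D ∈ (P j).powerset.filter (fun D => D.card ≤ 2 * b j), (-1) ^ D.card * bhI Ω D t

/-- main term for one block -/
noncomputable def bhM (Ω : (l : ℕ) → Finset (ZMod l)) (P : ℕ → Finset ℕ) (b : ℕ → ℕ) (j : ℕ) :
    ℝ :=
  ∑ D ∈ (P j).powerset.filter (fun D => D.card ≤ 2 * b j), ∏ l ∈ D, (-(((Ω l).card : ℝ) / l))

/-- error term for one block -/
noncomputable def bhR (Ω : (l : ℕ) → Finset (ZMod l)) (P : ℕ → Finset ℕ) (b : ℕ → ℕ) (j : ℕ) :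
    ℝ :=
  ∑ D ∈ (P j).powerset.filter (fun D => D.card ≤ 2 * b j), ∏ l ∈ D, ((Ω l).card : ℝ)

theorem bh_ind (hC : ST_CRTC) (N : ℕ) (P : ℕ → Finset ℕ) (b : ℕ → ℕ)
    (Ω : (l : ℕ) → Finset (ZMod l)) : ∀ J : ℕ,
    (∀ j < J, ∀ l ∈ P j, l.Prime) → (∀ i < J, ∀ j < J, i ≠ j → Disjoint (P i) (P j)) →
    ∀ D0 : Finset ℕ, (∀ l ∈ D0, l.Prime) → (∀ j < J, Disjoint D0 (P j)) →
    |∑ t ∈ range N, bhI Ω D0 t * ∏ j ∈ range J, bhT Ω P b j t -
      N * (∏ l ∈ D0, (((Ω l).card : ℝ) / l)) * ∏ j ∈ range J, bhM Ω P b j| ≤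
      (∏ l ∈ D0, ((Ω l).card : ℝ)) * ∏ j ∈ range J, bhR Ω P b j := by
  intro J
  induction J with
  | zero =>
    intro _ _ D0 hD0 _
    classical
    have h := hC N D0 Ω hD0 ((range N).filter fun t => ∀ l ∈ D0, (t : ZMod l) ∈ Ω l)
      (fun t => by simp [Finset.mem_filter])
    simp only [Finset.range_zero, Finset.prod_empty, mul_one]
    have e : ∑ t ∈ range N, bhI Ω D0 t =
        (((range N).filter fun t => ∀ l ∈ D0, (t : ZMod l) ∈ Ω l).card : ℝ) := by
      unfold bhI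
      rw [Finset.sum_boole]
    rw [e]
    exact h
  | succ J ih =>
    intro hP hdis D0 hD0 hD0P
    have ih' := ih (fun j hj => hP j (by omega)) (fun i hi j hj => hdis i (by omega) j (by omega))
    set A := (P J).powerset.filter (fun D => D.card ≤ 2 * b J) with hA
    have hAsub : ∀ D ∈ A, D ⊆ P J := fun D hD =>
      Finset.mem_powerset.1 (Finset.mem_filter.1 hD).1
    have hdisD : ∀ D ∈ A, Disjoint D0 D := fun D hD =>
      Finset.disjoint_of_subset_right (hAsub D hD) (hD0P J (by omega))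
    have e1 : ∑ t ∈ range N, bhI Ω D0 t * ∏ j ∈ range (J + 1), bhT Ω P b j t =
        ∑ D ∈ A, (-1 : ℝ) ^ D.card *
          ∑ t ∈ range N, bhI Ω (D0 ∪ D) t * ∏ j ∈ range J, bhT Ω P b j t := by
      have : ∀ t ∈ range N, bhI Ω D0 t * ∏ j ∈ range (J + 1), bhT Ω P b j t =
          ∑ D ∈ A, (-1 : ℝ) ^ D.card * (bhI Ω (D0 ∪ D) t * ∏ j ∈ range J, bhT Ω P b j t) := by
        intro t _
        rw [Finset.prod_range_succ]
        have : bhT Ω P b J t = ∑ D ∈ A, (-1) ^ D.card * bhI Ω D t := rfl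
        rw [this, Finset.mul_sum, Finset.mul_sum]
        refine Finset.sum_congr rfl fun D _ => ?_
        rw [bhI_union]
        ring
      rw [Finset.sum_congr rfl this, Finset.sum_comm]
      refine Finset.sum_congr rfl fun D _ => ?_
      rw [Finset.mul_sum]
    have e2 : N * (∏ l ∈ D0, (((Ω l).card : ℝ) / l)) * ∏ j ∈ range (J + 1), bhM Ω P b j =
        ∑ D ∈ A, (-1 : ℝ) ^ D.card *
          (N * (∏ l ∈ D0 ∪ D, (((Ω l).card : ℝ) / l)) * ∏ j ∈ range J, bhM Ω P b j) := by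
      rw [Finset.prod_range_succ]
      have : bhM Ω P b J = ∑ D ∈ A, ∏ l ∈ D, (-(((Ω l).card : ℝ) / l)) := rfl
      rw [this, Finset.mul_sum, Finset.mul_sum]
      refine Finset.sum_congr rfl fun D hD => ?_
      rw [Finset.prod_union (hdisD D hD)]
      have h3 : ∏ l ∈ D, (-(((Ω l).card : ℝ) / l)) =
          (-1 : ℝ) ^ D.card * ∏ l ∈ D, (((Ω l).card : ℝ) / l) := by
        rw [← Finset.prod_const, ← Finset.prod_mul_distrib]
        exact Finset.prod_congr rfl fun l _ => by ring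
      rw [h3]
      ring
    have e3 : (∏ l ∈ D0, ((Ω l).card : ℝ)) * ∏ j ∈ range (J + 1), bhR Ω P b j =
        ∑ D ∈ A, (∏ l ∈ D0 ∪ D, ((Ω l).card : ℝ)) * ∏ j ∈ range J, bhR Ω P b j := by
      rw [Finset.prod_range_succ]
      have : bhR Ω P b J = ∑ D ∈ A, ∏ l ∈ D, ((Ω l).card : ℝ) := rfl
      rw [this, Finset.mul_sum, Finset.mul_sum]
      refine Finset.sum_congr rfl fun D hD => ?_
      rw [Finset.prod_union (hdisD D hD)]
      ring
    rw [e1, e2, e3, ← Finset.sum_sub_distrib]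
    refine (Finset.abs_sum_le_sum_abs _ _).trans (Finset.sum_le_sum fun D hD => ?_)
    rw [← mul_sub, abs_mul, abs_pow, abs_neg, abs_one, one_pow, one_mul]
    refine ih' (D0 ∪ D) ?_ ?_
    · intro l hl
      rcases Finset.mem_union.1 hl with h | h
      · exact hD0 l h
      · exact hP J (by omega) l (hAsub D hD h)
    · intro j hj
      rw [Finset.disjoint_union_left]
      exact ⟨hD0P j (by omega), Finset.disjoint_of_subset_left (hAsub D hD)
        (hdis J (by omega) j (by omega) (by omega))⟩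

theorem bhT_ge (hB : ST_BONA) (Ω : (l : ℕ) → Finset (ZMod l)) (P : ℕ → Finset ℕ) (b : ℕ → ℕ)
    (j t : ℕ) : 0 ≤ bhT Ω P b j t ∧ ((∀ l ∈ P j, (t : ZMod l) ∉ Ω l) → 1 ≤ bhT Ω P b j t) := by
  classical
  set H := (P j).filter fun l => (t : ZMod l) ∈ Ω l with hH
  have e : bhT Ω P b j t =
      ((∑ D ∈ H.powerset.filter (fun D => D.card ≤ 2 * b j), (-1) ^ D.card : ℤ) : ℝ) := by
    unfold bhT bhI
    push_cast
    simp only [mul_ite, mul_one, mul_zero]
    rw [← Finset.sum_filter]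
    refine Finset.sum_congr ?_ fun _ _ => rfl
    ext D
    simp only [Finset.mem_filter, Finset.mem_powerset, hH, Finset.subset_iff]
    constructor
    · rintro ⟨⟨h1, h2⟩, h3⟩
      exact ⟨fun l hl => ⟨h1 hl, h3 l hl⟩, h2⟩
    · rintro ⟨h1, h2⟩
      exact ⟨⟨fun l hl => (h1 hl).1, h2⟩, fun l hl => (h1 hl).2⟩
  have h := hB H (b j)
  constructor
  · rw [e]
    have h0 : (0 : ℤ) ≤ ∑ D ∈ H.powerset.filter (fun D => D.card ≤ 2 * b j), (-1) ^ D.card := by
      refine le_trans ?_ h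
      split_ifs <;> norm_num
    exact_mod_cast h0
  · intro hn
    have hH0 : H = ∅ := Finset.filter_eq_empty_iff.2 fun l hl => hn l hl
    rw [if_pos hH0] at h
    rw [e]
    exact_mod_cast h

theorem st_BH (hB : ST_BONA) (hC : ST_CRTC) : ST_BH := by
  intro N J P b Ω hP hdis S hS
  have h := bh_ind hC N P b Ω J hP hdis ∅ (by simp) (by simp)
  have h2 := (abs_le.1 h).2
  rw [Finset.prod_empty, Finset.prod_empty, mul_one, one_mul] at h2
  have hemp : ∀ t, bhI Ω ∅ t = 1 := fun t => by simp [bhI]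
  have h3 : (S.card : ℝ) ≤ ∑ t ∈ range N, bhI Ω ∅ t * ∏ j ∈ range J, bhT Ω P b j t := by
    have hsub : S ⊆ range N := fun t ht => Finset.mem_range.2 (hS t ht).1
    calc (S.card : ℝ) = ∑ t ∈ S, (1 : ℝ) := by simp
      _ ≤ ∑ t ∈ S, bhI Ω ∅ t * ∏ j ∈ range J, bhT Ω P b j t := by
          refine Finset.sum_le_sum fun t ht => ?_
          rw [hemp, one_mul]
          calc (1 : ℝ) = ∏ j ∈ range J, (1 : ℝ) := by simp
            _ ≤ ∏ j ∈ range J, bhT Ω P b j t :=
              Finset.prod_le_prod (fun _ _ => zero_le_one) fun j hj =>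
                (bhT_ge hB Ω P b j t).2 ((hS t ht).2 j (Finset.mem_range.1 hj))
      _ ≤ ∑ t ∈ range N, bhI Ω ∅ t * ∏ j ∈ range J, bhT Ω P b j t := by
          refine Finset.sum_le_sum_of_subset_of_nonneg hsub fun t _ _ => ?_
          rw [hemp, one_mul]
          exact Finset.prod_nonneg fun j _ => (bhT_ge hB Ω P b j t).1
  have h4 : ∑ t ∈ range N, bhI Ω ∅ t * ∏ j ∈ range J, bhT Ω P b j t ≤
      N * ∏ j ∈ range J, bhM Ω P b j + ∏ j ∈ range J, bhR Ω P b j := by
    linarith only [h2]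
  exact h3.trans h4

end Pool.Agent.Helper17.SO
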