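import Mathlib
import Pool.Agent.Helper17.SO.Stmts

set_option autoImplicit false

/-! Modules BONA, BONB, ESY, SUMT. -/

open Finset

namespace Pool.Agent.Helper17.SO

/-- elementary symmetric sums -/
noncomputable def bonE (g : ℕ → ℝ) (P : Finset ℕ) (r : ℕ) : ℝ :=
  ∑ D ∈ P.powersetCard r, ∏ l ∈ D, g l

theorem bonE_zero (g : ℕ → ℝ) (P : Finset ℕ) : bonE g P 0 = 1 := by
  simp [bonE]

theorem bonE_empty (g : ℕ → ℝ) (r : ℕ) : bonE g ∅ (r + 1) = 0 := by
  unfold bonE
  rw [Finset.powersetCard_eq_empty.2 (by simp)]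
  simp

theorem bonE_insert (g : ℕ → ℝ) (P : Finset ℕ) (a : ℕ) (ha : a ∉ P) (r : ℕ) :
    bonE g (insert a P) (r + 1) = bonE g P (r + 1) + g a * bonE g P r := by
  unfold bonE
  rw [Finset.powersetCard_succ_insert ha, Finset.sum_union, Finset.sum_image, Finset.mul_sum]
  · congr 1
    refine Finset.sum_congr rfl fun D hD => ?_
    have hD' : a ∉ D := fun h => ha ((Finset.mem_powersetCard.1 hD).1 h)
    rw [Finset.prod_insert hD']
  · intro D hD D' hD' h
    have h1 : a ∉ D := fun h => ha ((Finset.mem_powersetCard.1 hD).1 h)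
    have h2 : a ∉ D' := fun h => ha ((Finset.mem_powersetCard.1 hD').1 h)
    have h3 : (insert a D).erase a = (insert a D').erase a := congrArg (fun s => s.erase a) h
    rwa [Finset.erase_insert h1, Finset.erase_insert h2] at h3
  · rw [Finset.disjoint_left]
    intro D hD hD'
    obtain ⟨D'', h1, h2⟩ := Finset.mem_image.1 hD'
    exact ha ((Finset.mem_powersetCard.1 hD).1 (h2 ▸ Finset.mem_insert_self a D''))

theorem bonE_nonneg (g : ℕ → ℝ) (P : Finset ℕ) (r : ℕ) (hg : ∀ l ∈ P, 0 ≤ g l) :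
    0 ≤ bonE g P r :=
  Finset.sum_nonneg fun D hD => Finset.prod_nonneg fun l hl =>
    hg l ((Finset.mem_powersetCard.1 hD).1 hl)

/-- a truncated sum over the power set -/
theorem sum_powerset_card_le {M : Type*} [AddCommMonoid M] (P : Finset ℕ) (r : ℕ)
    (f : Finset ℕ → M) :
    ∑ D ∈ P.powerset.filter (fun D => D.card ≤ r), f D =
      ∑ i ∈ range (r + 1), ∑ D ∈ P.powersetCard i, f D := by
  rw [← Finset.sum_fiberwise_of_maps_to (s := P.powerset.filter (fun D => D.card ≤ r))
    (t := range (r + 1)) (g := Finset.card)]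
  · refine Finset.sum_congr rfl fun i hi => ?_
    refine Finset.sum_congr ?_ fun _ _ => rfl
    ext D
    have hi' := Finset.mem_range.1 hi
    simp only [Finset.mem_filter, Finset.mem_powerset, Finset.mem_powersetCard]
    constructor
    · rintro ⟨⟨h1, h2⟩, h3⟩
      exact ⟨h1, h3⟩
    · rintro ⟨h1, h3⟩
      exact ⟨⟨h1, by omega⟩, h3⟩
  · intro D hD
    have := (Finset.mem_filter.1 hD).2
    exact Finset.mem_range.2 (by omega)

/-- the truncated alternating sum -/
noncomputable def bonA (g : ℕ → ℝ) (P : Finset ℕ) (r : ℕ) : ℝ :=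
  ∑ i ∈ range (r + 1), (-1) ^ i * bonE g P i

theorem bonA_eq (g : ℕ → ℝ) (P : Finset ℕ) (r : ℕ) :
    ∑ D ∈ P.powerset.filter (fun D => D.card ≤ r), ∏ l ∈ D, (-g l) = bonA g P r := by
  rw [sum_powerset_card_le]
  unfold bonA bonE
  refine Finset.sum_congr rfl fun i _ => ?_
  rw [Finset.mul_sum]
  refine Finset.sum_congr rfl fun D hD => ?_
  rw [← (Finset.mem_powersetCard.1 hD).2, ← Finset.prod_const, ← Finset.prod_mul_distrib]
  exact Finset.prod_congr rfl fun l _ => by ring

theorem bonA_insert (g : ℕ → ℝ) (P : Finset ℕ) (a : ℕ) (ha : a ∉ P) (r : ℕ) :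
    bonA g (insert a P) (r + 1) = bonA g P (r + 1) - g a * bonA g P r := by
  unfold bonA
  rw [Finset.sum_range_succ' _ (r + 1), Finset.sum_range_succ' _ (r + 1), bonE_zero, bonE_zero,
    Finset.mul_sum]
  have : ∑ k ∈ range (r + 1), (-1 : ℝ) ^ (k + 1) * bonE g (insert a P) (k + 1) =
      ∑ k ∈ range (r + 1), (-1 : ℝ) ^ (k + 1) * bonE g P (k + 1) -
        ∑ i ∈ range (r + 1), g a * ((-1) ^ i * bonE g P i) := by
    rw [← Finset.sum_sub_distrib]
    refine Finset.sum_congr rfl fun k _ => ?_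
    rw [bonE_insert g P a ha k]
    ring
  rw [this]
  ring

theorem bon_main (g : ℕ → ℝ) (P : Finset ℕ) (hg : ∀ l ∈ P, 0 ≤ g l ∧ g l ≤ 1) :
    ∀ r : ℕ, 0 ≤ (-1) ^ r * (bonA g P r - ∏ l ∈ P, (1 - g l)) ∧
      (-1) ^ r * (bonA g P r - ∏ l ∈ P, (1 - g l)) ≤ bonE g P (r + 1) := by
  induction P using Finset.induction_on with
  | empty =>
    intro r
    have : bonA g ∅ r = 1 := by
      unfold bonA
      rw [Finset.sum_range_succ', bonE_zero, Finset.sum_eq_zero fun i _ => by
        rw [bonE_empty]; ring]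
      norm_num
    rw [this, bonE_empty]
    simp
  | insert a P ha ih =>
    have hgP : ∀ l ∈ P, 0 ≤ g l ∧ g l ≤ 1 := fun l hl => hg l (Finset.mem_insert_of_mem hl)
    have hga := hg a (Finset.mem_insert_self a P)
    have ih' := ih hgP
    have hV0 : 0 ≤ ∏ l ∈ P, (1 - g l) := Finset.prod_nonneg fun l hl => by
      have := (hgP l hl).2; linarith only [this]
    intro r
    rw [Finset.prod_insert ha]
    cases r with
    | zero =>
      have h1 : bonA g (insert a P) 0 = 1 := by
        unfold bonA; rw [Finset.sum_range_one, bonE_zero]; norm_num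
      have h2 : bonA g P 0 = 1 := by
        unfold bonA; rw [Finset.sum_range_one, bonE_zero]; norm_num
      have ih0 := ih' 0
      have hE0 : bonE g P 0 = 1 := bonE_zero g P
      rw [bonE_insert g P a ha, h1, hE0]
      rw [h2] at ih0
      have hV1 : ∏ l ∈ P, (1 - g l) ≤ 1 := by
        have := ih0.1
        simp only [pow_zero, one_mul] at this
        linarith only [this]
      simp only [pow_zero, one_mul] at ih0 ⊢
      constructor
      · nlinarith only [ih0.1, hga.1, hV0]
      · nlinarith only [ih0.2, hga.1, hV1, hV0]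
    | succ r =>
      rw [bonA_insert g P a ha, bonE_insert g P a ha]
      have e1 := ih' (r + 1)
      have e0 := ih' r
      have key : (-1 : ℝ) ^ (r + 1) * (bonA g P (r + 1) - g a * bonA g P r -
          (1 - g a) * ∏ l ∈ P, (1 - g l)) =
          (-1) ^ (r + 1) * (bonA g P (r + 1) - ∏ l ∈ P, (1 - g l)) +
            g a * ((-1) ^ r * (bonA g P r - ∏ l ∈ P, (1 - g l))) := by
        rw [pow_succ]; ring
      rw [key]
      constructor
      · have := mul_nonneg hga.1 e0.1
        linarith only [this, e1.1]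
      · have := mul_le_mul_of_nonneg_left e0.2 hga.1
        linarith only [this, e1.2]

theorem bonA_even_ge (g : ℕ → ℝ) (P : Finset ℕ) (hg : ∀ l ∈ P, 0 ≤ g l ∧ g l ≤ 1) (b : ℕ) :
    ∏ l ∈ P, (1 - g l) ≤ bonA g P (2 * b) := by
  have h := (bon_main g P hg (2 * b)).1
  rw [pow_mul] at h
  norm_num at h
  exact h

theorem bonA_even_le (g : ℕ → ℝ) (P : Finset ℕ) (hg : ∀ l ∈ P, 0 ≤ g l ∧ g l ≤ 1) (b : ℕ) :
    bonA g P (2 * b) ≤ ∏ l ∈ P, (1 - g l) + bonE g P (2 * b + 1) := by
  have h := (bon_main g P hg (2 * b)).2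
  rw [pow_mul] at h
  norm_num at h
  linarith only [h]

theorem st_BONB : ST_BONB := by
  intro P g b hg
  rw [bonA_eq]
  exact bonA_even_le g P hg b

theorem st_BONA : ST_BONA := by
  intro H b
  have h := bonA_even_ge (fun _ => 1) H (fun l _ => ⟨by norm_num, le_rfl⟩) b
  rw [← bonA_eq] at h
  have hcast : (((if H = ∅ then (1 : ℤ) else 0 : ℤ)) : ℝ) ≤
      ((∑ D ∈ H.powerset.filter (fun D => D.card ≤ 2 * b), (-1) ^ D.card : ℤ) : ℝ) := by
    refine le_trans (le_of_eq ?_) (le_trans h (le_of_eq ?_))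
    · by_cases hH : H = ∅
      · simp [hH]
      · rw [if_neg hH]
        obtain ⟨x, hx⟩ := Finset.nonempty_iff_ne_empty.2 hH
        rw [Finset.prod_eq_zero hx (by norm_num)]
        norm_num
    · push_cast
      refine Finset.sum_congr rfl fun D _ => ?_
      rw [Finset.prod_const]
  exact_mod_cast hcast

theorem esy_pow (S g : ℝ) (hS : 0 ≤ S) (hg : 0 ≤ g) (r : ℕ) :
    S ^ (r + 1) + (r + 1 : ℝ) * g * S ^ r ≤ (S + g) ^ (r + 1) := by
  induction r with
  | zero => norm_num
  | succ r ih =>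
    have h1 : 0 ≤ S + g := by linarith only [hS, hg]
    have h2 := mul_le_mul_of_nonneg_left ih h1
    have h3 : 0 ≤ (r + 1 : ℝ) * g * S ^ r * g := by positivity
    push_cast
    calc S ^ (r + 1 + 1) + ((r : ℝ) + 1 + 1) * g * S ^ (r + 1) ≤
        (S + g) * (S ^ (r + 1) + (r + 1 : ℝ) * g * S ^ r) := by
          have e : (S + g) * (S ^ (r + 1) + (r + 1 : ℝ) * g * S ^ r) =
            S ^ (r + 1 + 1) + ((r : ℝ) + 1 + 1) * g * S ^ (r + 1) +
              (r + 1 : ℝ) * g * S ^ r * g := by ring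
          rw [e]; linarith only [h3]
      _ ≤ (S + g) * (S + g) ^ (r + 1) := h2
      _ = (S + g) ^ (r + 1 + 1) := by ring

theorem bonE_le (g : ℕ → ℝ) (P : Finset ℕ) (hg : ∀ l ∈ P, 0 ≤ g l) :
    ∀ r : ℕ, bonE g P r ≤ (∑ l ∈ P, g l) ^ r / (r.factorial : ℝ) := by
  induction P using Finset.induction_on with
  | empty =>
    intro r
    cases r with
    | zero => rw [bonE_zero]; simp
    | succ r => rw [bonE_empty]; simp
  | insert a P ha ih =>
    have hgP : ∀ l ∈ P, 0 ≤ g l := fun l hl => hg l (Finset.mem_insert_of_mem hl)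
    have hga := hg a (Finset.mem_insert_self a P)
    have hS : 0 ≤ ∑ l ∈ P, g l := Finset.sum_nonneg hgP
    intro r
    cases r with
    | zero => rw [bonE_zero]; simp
    | succ r =>
      rw [bonE_insert g P a ha, Finset.sum_insert ha]
      have h1 := ih hgP (r + 1)
      have h0 := mul_le_mul_of_nonneg_left (ih hgP r) hga
      have hp := esy_pow _ _ hS hga r
      have hf : (0 : ℝ) < ((r + 1).factorial : ℝ) := by exact_mod_cast Nat.factorial_pos _
      have hf0 : (0 : ℝ) < (r.factorial : ℝ) := by exact_mod_cast Nat.factorial_pos _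
      have e : (∑ l ∈ P, g l) ^ (r + 1) / ((r + 1).factorial : ℝ) +
          g a * ((∑ l ∈ P, g l) ^ r / (r.factorial : ℝ)) =
          ((∑ l ∈ P, g l) ^ (r + 1) + (r + 1 : ℝ) * g a * (∑ l ∈ P, g l) ^ r) /
            ((r + 1).factorial : ℝ) := by
        rw [Nat.factorial_succ]
        push_cast
        field_simp
      calc bonE g P (r + 1) + g a * bonE g P r ≤
          (∑ l ∈ P, g l) ^ (r + 1) / ((r + 1).factorial : ℝ) +
          g a * ((∑ l ∈ P, g l) ^ r / (r.factorial : ℝ)) := add_le_add h1 h0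
        _ = _ := e
        _ ≤ (∑ l ∈ P, g l + g a) ^ (r + 1) / ((r + 1).factorial : ℝ) :=
            div_le_div_of_nonneg_right hp hf.le
        _ = _ := by rw [add_comm (g a)]

theorem st_ESY : ST_ESY := fun P g r hg => bonE_le g P hg r

theorem st_SUMT (hM : ST_MER) : ST_SUMT := by
  obtain ⟨C, hC, hM⟩ := hM
  refine ⟨1 + 2 * C, by linarith only [hC], fun w z I hw hwz => ?_⟩
  have h := hM w z hw hwz
  set X : ℝ := ∑ q ∈ PP w z, (2 / (q : ℝ)) with hX
  have hX0 : 0 ≤ X := Finset.sum_nonneg fun q _ => by positivity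
  have hX1 : X = 2 * ∑ p ∈ PP w z, 1 / (p : ℝ) := by
    rw [hX, Finset.mul_sum]
    exact Finset.sum_congr rfl fun q _ => by ring
  have hX2 : 1 + X ≤ 1 + 2 * C + 2 * LL w z := by
    have := (abs_le.1 h).2
    rw [hX1]
    linarith only [this]
  rw [sum_powerset_card_le]
  calc ∑ i ∈ range (I + 1), ∑ D ∈ (PP w z).powersetCard i, ∏ q ∈ D, (2 / (q : ℝ)) ≤
      ∑ i ∈ range (I + 1), X ^ i * 1 ^ (I - i) * (I.choose i : ℝ) := by
        refine Finset.sum_le_sum fun i hi => ?_
        have hi' : i ≤ I := by have := Finset.mem_range.1 hi; omega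
        have h1 := st_ESY (PP w z) (fun q => 2 / (q : ℝ)) i (fun q _ => by positivity)
        refine h1.trans ?_
        rw [one_pow, mul_one]
        have hf : (1 : ℝ) ≤ (i.factorial : ℝ) := by
          exact_mod_cast Nat.succ_le_of_lt (Nat.factorial_pos i)
        have hc : (1 : ℝ) ≤ (I.choose i : ℝ) := by
          exact_mod_cast Nat.succ_le_of_lt (Nat.choose_pos hi')
        have hXi : 0 ≤ X ^ i := pow_nonneg hX0 i
        calc X ^ i / (i.factorial : ℝ) ≤ X ^ i := div_le_self hXi hf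
          _ ≤ X ^ i * (I.choose i : ℝ) := le_mul_of_one_le_right hXi hc
    _ = (X + 1) ^ I := by rw [add_pow]
    _ ≤ (1 + 2 * C + 2 * LL w z) ^ I := by
        refine pow_le_pow_left₀ (by linarith only [hX0]) ?_ I
        linarith only [hX2]

end Pool.Agent.Helper17.SO
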