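import Mathlib
import Pool.Agent.Helper17.SO.Stmts

set_option autoImplicit false

/-! Module SAP. -/

open Finset

namespace Pool.Agent.Helper17.SO

/-- the transported classes -/
noncomputable def sapO (Ω : (l : ℕ) → Finset (ZMod l)) (Q a : ℕ) (l : ℕ) : Finset (ZMod l) := by
  classical exact (Ω l).image fun r => (r - (a : ZMod l)) * (Q : ZMod l)⁻¹

theorem sap_unit (l Q : ℕ) (hl : l.Prime) (hQ : ¬ l ∣ Q) : (Q : ZMod l) * (Q : ZMod l)⁻¹ = 1 :=
  ZMod.coe_mul_inv_eq_one Q (Nat.Coprime.symm ((Nat.Prime.coprime_iff_not_dvd hl).2 hQ))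

theorem sapO_card (Ω : (l : ℕ) → Finset (ZMod l)) (Q a l : ℕ) (hl : l.Prime) (hQ : ¬ l ∣ Q) :
    (sapO Ω Q a l).card = (Ω l).card := by
  classical
  unfold sapO
  refine Finset.card_image_of_injective _ fun r s h => ?_
  have hu := sap_unit l Q hl hQ
  have h1 : ((r - (a : ZMod l)) * (Q : ZMod l)⁻¹) * Q = ((s - (a : ZMod l)) * (Q : ZMod l)⁻¹) * Q :=
    congrArg (fun x => x * (Q : ZMod l)) h
  have h2 : (Q : ZMod l)⁻¹ * Q = 1 := by rw [mul_comm]; exact hu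
  rw [mul_assoc, mul_assoc, h2, mul_one, mul_one] at h1
  exact sub_left_injective h1

theorem sapO_mem (Ω : (l : ℕ) → Finset (ZMod l)) (Q a l t : ℕ) (hl : l.Prime) (hQ : ¬ l ∣ Q)
    (h : (t : ZMod l) ∈ sapO Ω Q a l) : ((a + Q * t : ℕ) : ZMod l) ∈ Ω l := by
  classical
  obtain ⟨r, hr, h1⟩ := Finset.mem_image.1 h
  have hu := sap_unit l Q hl hQ
  have h2 : ((a + Q * t : ℕ) : ZMod l) = r := by
    push_cast
    rw [← h1]
    calc (a : ZMod l) + Q * ((r - a) * (Q : ZMod l)⁻¹) =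
        (a : ZMod l) + (Q * (Q : ZMod l)⁻¹) * (r - a) := by ring
      _ = r := by rw [hu]; ring
  rw [h2]
  exact hr

theorem st_SAP (hS : ST_SIEVE) : ST_SAP := by
  obtain ⟨b, C, hb, hC, hmain⟩ := hS
  refine ⟨b, 2 * C, hb, by positivity, ?_⟩
  intro z X Q a P Ω hz hQ hX hP S hS
  classical
  have hdiv : z ^ b ≤ X / Q := by
    rw [Nat.le_div_iff_mul_le (by omega)]
    exact hX
  have h := hmain z (X / Q + 1) P (sapO Ω Q (a % Q)) hz (by omega)
    (fun l hl => by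
      obtain ⟨h1, h2, h3, h4, h5⟩ := hP l hl
      refine ⟨h1, h2, h3, ?_⟩
      rw [sapO_card Ω Q (a % Q) l h1 h5]
      exact h4) (S.image fun k => k / Q) (by
    intro t ht
    obtain ⟨k, hk, rfl⟩ := Finset.mem_image.1 ht
    obtain ⟨h1, h2, h3⟩ := hS k hk
    refine ⟨by have := Nat.div_le_div_right (c := Q) h1; omega, fun l hl hmem => ?_⟩
    obtain ⟨p1, p2, p3, p4, p5⟩ := hP l hl
    have h4 := sapO_mem Ω Q (a % Q) l (k / Q) p1 p5 hmem
    rw [← h2, Nat.mod_add_div] at h4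
    exact h3 l hl h4)
  have hcard : (S.image fun k => k / Q).card = S.card := by
    refine Finset.card_image_of_injOn fun k hk k' hk' he => ?_
    have h1 := (hS k hk).2.1
    have h2 := (hS k' hk').2.1
    have h3 : k / Q = k' / Q := he
    rw [← Nat.mod_add_div k Q, ← Nat.mod_add_div k' Q, h1, h2, h3]
  rw [hcard] at h
  have hsum : ∑ l ∈ P, ((sapO Ω Q (a % Q) l).card : ℝ) / l = ∑ l ∈ P, ((Ω l).card : ℝ) / l :=
    Finset.sum_congr rfl fun l hl => by
      obtain ⟨p1, p2, p3, p4, p5⟩ := hP l hl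
      rw [sapO_card Ω Q (a % Q) l p1 p5]
  rw [hsum] at h
  refine h.trans ?_
  refine mul_le_mul_of_nonneg_right ?_ (Real.exp_pos _).le
  have hQr : (0 : ℝ) < Q := by exact_mod_cast hQ
  have h1 : ((X / Q : ℕ) : ℝ) ≤ (X : ℝ) / Q := Nat.cast_div_le
  have h2 : (1 : ℝ) ≤ (X : ℝ) / Q := by
    refine le_trans ?_ h1
    have : 1 ≤ z ^ b := Nat.one_le_pow _ _ (by omega)
    exact_mod_cast this.trans hdiv
  push_cast
  calc C * ((((X / Q : ℕ) : ℝ)) + 1) ≤ C * ((X : ℝ) / Q + (X : ℝ) / Q) :=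
        mul_le_mul_of_nonneg_left (add_le_add h1 h2) hC.le
    _ = 2 * C * ((X : ℝ) / Q) := by ring

end Pool.Agent.Helper17.SO
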