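import Mathlib
import Pool.Agent.Helper38.SO.Bon
import Pool.Agent.Helper38.SO.BH

set_option autoImplicit false

/-! Module SIEVE. -/

open Finset

namespace Pool.Agent.Helper17.SO

/-- iterated integer square roots -/
def sz (z : ℕ) : ℕ → ℕ
  | 0 => z
  | j + 1 => Nat.sqrt (sz z j)

theorem sz_pos (z : ℕ) (hz : 1 ≤ z) (j : ℕ) : 1 ≤ sz z j := by
  induction j with
  | zero => exact hz
  | succ j ih => exact Nat.sqrt_pos.2 ih

theorem sz_pow (z : ℕ) (j : ℕ) : (sz z j) ^ (2 ^ j) ≤ z := by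
  induction j with
  | zero => simp [sz]
  | succ j ih =>
    calc (sz z (j + 1)) ^ (2 ^ (j + 1)) = ((sz z (j + 1)) ^ 2) ^ (2 ^ j) := by
          rw [← pow_mul, pow_succ, mul_comm]
      _ ≤ (sz z j) ^ (2 ^ j) := Nat.pow_le_pow_left (Nat.sqrt_le' _) _
      _ ≤ z := ih

theorem sz_anti (z : ℕ) : Antitone (sz z) :=
  antitone_nat_of_succ_le fun j => Nat.sqrt_le_self (sz z j)

theorem sz_le (z : ℕ) (j : ℕ) : sz z j ≤ 1 ∨ sz z j + j ≤ z := by
  induction j with
  | zero => exact Or.inr (by simp [sz])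
  | succ j ih =>
    by_cases h1 : sz z j ≤ 1
    · exact Or.inl ((Nat.sqrt_le_self _).trans h1)
    · rcases ih with h | h
      · exact absurd h h1
      · right
        have : sz z (j + 1) < sz z j := Nat.sqrt_lt_self (by omega)
        omega

theorem sz_last (z : ℕ) : sz z z ≤ 1 := by
  rcases sz_le z z with h | h <;> omega

/-- the blocks -/
def szP (P : Finset ℕ) (z j : ℕ) : Finset ℕ :=
  P.filter fun l => sz z (j + 1) < l ∧ l ≤ sz z j

theorem szP_disj (P : Finset ℕ) (z i j : ℕ) (hij : i ≠ j) : Disjoint (szP P z i) (szP P z j) := by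
  rw [Finset.disjoint_left]
  intro l hi hj
  have h1 := (Finset.mem_filter.1 hi).2
  have h2 := (Finset.mem_filter.1 hj).2
  rcases Nat.lt_or_gt_of_ne hij with h | h
  · have := sz_anti z (show i + 1 ≤ j by omega)
    omega
  · have := sz_anti z (show j + 1 ≤ i by omega)
    omega

theorem szP_cover (P : Finset ℕ) (z : ℕ) (hP : ∀ l ∈ P, 7 ≤ l ∧ l ≤ z) :
    P = (range z).biUnion (szP P z) := by
  ext l
  rw [Finset.mem_biUnion]
  constructor
  · intro hl
    have hex : ∃ n, sz z n < l := ⟨z, by have := sz_last z; have := (hP l hl).1; omega⟩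
    have h0 : Nat.find hex ≠ 0 := by
      intro h
      have h1 := Nat.find_spec hex
      rw [h] at h1
      have : sz z 0 = z := rfl
      have := (hP l hl).2
      omega
    obtain ⟨j, hj⟩ := Nat.exists_eq_succ_of_ne_zero h0
    have h1 := Nat.find_spec hex
    rw [hj] at h1
    have h2 : ¬ sz z j < l := Nat.find_min hex (by omega)
    have h3 : Nat.find hex ≤ z := Nat.find_min' hex (by
      have := sz_last z; have := (hP l hl).1; omega)
    exact ⟨j, Finset.mem_range.2 (by omega), Finset.mem_filter.2 ⟨hl, h1, by omega⟩⟩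
  · rintro ⟨j, _, hj⟩
    exact (Finset.mem_filter.1 hj).1

theorem sz_L (CM : ℝ) (hCM : 0 ≤ CM) (hM : ∀ u w : ℕ, 2 ≤ u → u ≤ w →
    |∑ p ∈ PP u w, 1 / (p : ℝ) - LL u w| ≤ CM) (z : ℕ) (P : Finset ℕ) (g : ℕ → ℝ)
    (hP : ∀ l ∈ P, l.Prime ∧ 7 ≤ l ∧ l ≤ z ∧ g l ≤ 3 / l) (j : ℕ) :
    ∑ l ∈ szP P z j, g l ≤ 3 * (Real.log 4 + CM) := by
  have hlog4 : 0 ≤ Real.log 4 := Real.log_nonneg (by norm_num)
  by_cases hne : szP P z j = ∅
  · rw [hne, Finset.sum_empty]
    positivity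
  · obtain ⟨l0, hl0⟩ := Finset.nonempty_iff_ne_empty.2 hne
    have h7 : 7 ≤ sz z j := by
      have h1 := (Finset.mem_filter.1 hl0)
      have := (hP l0 h1.1).2.1
      omega
    have hu2 : 2 ≤ sz z (j + 1) := by
      change 2 ≤ Nat.sqrt (sz z j)
      rw [Nat.le_sqrt]
      omega
    have huw : sz z (j + 1) ≤ sz z j := sz_anti z (Nat.le_succ j)
    have hm := (abs_le.1 (hM _ _ hu2 huw)).2
    have hLL : LL (sz z (j + 1)) (sz z j) ≤ Real.log 4 := by
      unfold LL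
      have hlu : 0 < Real.log (sz z (j + 1) : ℝ) := Real.log_pos (by exact_mod_cast hu2)
      have hlw : 0 < Real.log (sz z j : ℝ) := Real.log_pos (by
        have : 1 < sz z j := by omega
        exact_mod_cast this)
      refine Real.log_le_log (div_pos hlw hlu) ?_
      rw [div_le_iff₀ hlu]
      have hnat : sz z j ≤ (sz z (j + 1)) ^ 4 := by
        have h1 : sz z j < (Nat.sqrt (sz z j) + 1) ^ 2 := Nat.lt_succ_sqrt' _
        have h2 : Nat.sqrt (sz z j) = sz z (j + 1) := rfl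
        rw [h2] at h1
        have h3 : sz z (j + 1) + 1 ≤ (sz z (j + 1)) ^ 2 := by nlinarith only [hu2]
        calc sz z j ≤ (sz z (j + 1) + 1) ^ 2 := h1.le
          _ ≤ ((sz z (j + 1)) ^ 2) ^ 2 := Nat.pow_le_pow_left h3 2
          _ = (sz z (j + 1)) ^ 4 := by ring
      have h4 : Real.log (sz z j : ℝ) ≤ Real.log ((sz z (j + 1) : ℝ) ^ 4) := by
        refine Real.log_le_log (by exact_mod_cast (show 0 < sz z j by omega)) ?_
        exact_mod_cast hnat
      rw [Real.log_pow] at h4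
      exact_mod_cast h4
    have hsub : szP P z j ⊆ PP (sz z (j + 1)) (sz z j) := by
      intro l hl
      have h1 := Finset.mem_filter.1 hl
      unfold PP
      rw [Finset.mem_filter, Finset.mem_Ioc]
      exact ⟨h1.2, (hP l h1.1).1⟩
    calc ∑ l ∈ szP P z j, g l ≤ ∑ l ∈ szP P z j, 3 * (1 / (l : ℝ)) := by
          refine Finset.sum_le_sum fun l hl => ?_
          have := (hP l (Finset.mem_filter.1 hl).1).2.2.2
          rwa [mul_one_div]
      _ ≤ ∑ l ∈ PP (sz z (j + 1)) (sz z j), 3 * (1 / (l : ℝ)) :=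
          Finset.sum_le_sum_of_subset_of_nonneg hsub fun l _ _ => by positivity
      _ = 3 * ∑ l ∈ PP (sz z (j + 1)) (sz z j), (1 / (l : ℝ)) := by rw [Finset.mul_sum]
      _ ≤ 3 * (Real.log 4 + CM) := by linarith only [hm, hLL]

/-- choice of the first level -/
theorem sz_b0 (B : ℝ) : ∃ b0 : ℕ, ∀ j : ℕ,
    Real.exp B * (B ^ (2 * (b0 + j) + 1) / ((2 * (b0 + j) + 1).factorial : ℝ)) ≤ (1 / 2) ^ j := by
  have h1 := FloorSemiring.tendsto_pow_div_factorial_atTop (2 * B)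
  have h2 := (h1.const_mul (Real.exp B))
  rw [mul_zero] at h2
  have h3 := h2.eventually (gt_mem_nhds (show (0 : ℝ) < 1 by norm_num))
  obtain ⟨n0, hn0⟩ := Filter.eventually_atTop.1 h3
  refine ⟨n0, fun j => ?_⟩
  set n := 2 * (n0 + j) + 1 with hn
  have h4 := hn0 n (by omega)
  rw [mul_pow] at h4
  have h5 : (0 : ℝ) < 2 ^ n := by positivity
  have h6 : Real.exp B * (B ^ n / (n.factorial : ℝ)) * 2 ^ n < 1 := by
    calc Real.exp B * (B ^ n / (n.factorial : ℝ)) * 2 ^ n =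
        Real.exp B * (2 ^ n * B ^ n / (n.factorial : ℝ)) := by ring
      _ < 1 := h4
  have h7 : Real.exp B * (B ^ n / (n.factorial : ℝ)) < 1 / 2 ^ n := by
    rw [lt_div_iff₀ h5]; exact h6
  calc Real.exp B * (B ^ n / (n.factorial : ℝ)) ≤ 1 / 2 ^ n := h7.le
    _ = (1 / 2) ^ n := by rw [one_div_pow]
    _ ≤ (1 / 2) ^ j := pow_le_pow_of_le_one (by norm_num) (by norm_num) (by omega)

theorem sz_main (B : ℝ) (Q : Finset ℕ) (g : ℕ → ℝ) (b j : ℕ)
    (hg : ∀ l ∈ Q, 0 ≤ g l ∧ g l ≤ 1) (hL : ∑ l ∈ Q, g l ≤ B)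
    (hb : Real.exp B * (B ^ (2 * b + 1) / ((2 * b + 1).factorial : ℝ)) ≤ (1 / 2) ^ j) :
    0 ≤ bonA g Q (2 * b) ∧
      bonA g Q (2 * b) ≤ Real.exp (-∑ l ∈ Q, g l) * (1 + (1 / 2) ^ j) := by
  constructor
  · refine le_trans ?_ (bonA_even_ge g Q hg b)
    exact Finset.prod_nonneg fun l hl => by
      have := (hg l hl).2; linarith only [this]
  · have h1 := bonA_even_le g Q hg b
    have hL0 : 0 ≤ ∑ l ∈ Q, g l := Finset.sum_nonneg fun l hl => (hg l hl).1
    have h2 := bonE_le g Q (fun l hl => (hg l hl).1) (2 * b + 1)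
    have h3 : ∏ l ∈ Q, (1 - g l) ≤ Real.exp (-∑ l ∈ Q, g l) := by
      rw [← Finset.sum_neg_distrib, Real.exp_sum]
      refine Finset.prod_le_prod (fun l hl => ?_) fun l _ => ?_
      · have := (hg l hl).2; linarith only [this]
      · have := Real.add_one_le_exp (-g l); linarith only [this]
    have hf : (0 : ℝ) < ((2 * b + 1).factorial : ℝ) := by exact_mod_cast Nat.factorial_pos _
    have h4 : (∑ l ∈ Q, g l) ^ (2 * b + 1) / ((2 * b + 1).factorial : ℝ) ≤
        B ^ (2 * b + 1) / ((2 * b + 1).factorial : ℝ) :=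
      div_le_div_of_nonneg_right (pow_le_pow_left₀ hL0 hL _) hf.le
    have h5 : B ^ (2 * b + 1) / ((2 * b + 1).factorial : ℝ) ≤
        Real.exp (-∑ l ∈ Q, g l) * (1 / 2) ^ j := by
      have h6 : B ^ (2 * b + 1) / ((2 * b + 1).factorial : ℝ) ≤ Real.exp (-B) * (1 / 2) ^ j := by
        rw [Real.exp_neg, inv_mul_eq_div, le_div_iff₀ (Real.exp_pos B), mul_comm]
        exact hb
      refine h6.trans (mul_le_mul_of_nonneg_right ?_ (by positivity))
      exact Real.exp_le_exp.2 (by linarith only [hL])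
    calc bonA g Q (2 * b) ≤ ∏ l ∈ Q, (1 - g l) + bonE g Q (2 * b + 1) := h1
      _ ≤ Real.exp (-∑ l ∈ Q, g l) + Real.exp (-∑ l ∈ Q, g l) * (1 / 2) ^ j :=
          add_le_add h3 (h2.trans (h4.trans h5))
      _ = Real.exp (-∑ l ∈ Q, g l) * (1 + (1 / 2) ^ j) := by ring

/-- the error term for one block -/
theorem sz_err (Ω : (l : ℕ) → Finset (ZMod l)) (Q : Finset ℕ) (y b : ℕ) (hy : 1 ≤ y)
    (hQ : ∀ l ∈ Q, 7 ≤ l ∧ l ≤ y ∧ (Ω l).card ≤ 3) :
    0 ≤ ∑ D ∈ Q.powerset.filter (fun D => D.card ≤ 2 * b), ∏ l ∈ D, ((Ω l).card : ℝ) ∧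
    ∑ D ∈ Q.powerset.filter (fun D => D.card ≤ 2 * b), ∏ l ∈ D, ((Ω l).card : ℝ) ≤
      (y : ℝ) ^ (4 * b) := by
  constructor
  · exact Finset.sum_nonneg fun D _ => Finset.prod_nonneg fun l _ => Nat.cast_nonneg _
  · have hyr : (1 : ℝ) ≤ y := by exact_mod_cast hy
    by_cases hne : Q = ∅
    · subst hne
      have : (∅ : Finset ℕ).powerset.filter (fun D => D.card ≤ 2 * b) = {∅} := by
        ext D; simp only [Finset.mem_filter, Finset.mem_powerset, Finset.subset_empty,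
          Finset.mem_singleton]
        constructor
        · exact fun h => h.1
        · rintro rfl; simp
      rw [this, Finset.sum_singleton, Finset.prod_empty]
      exact one_le_pow₀ hyr
    · obtain ⟨l0, hl0⟩ := Finset.nonempty_iff_ne_empty.2 hne
      have h7 : 7 ≤ y := (hQ l0 hl0).1.trans (hQ l0 hl0).2.1
      have hcard : Q.card ≤ y := by
        have : Q ⊆ Finset.Icc 1 y := fun l hl => Finset.mem_Icc.2
          ⟨by have := (hQ l hl).1; omega, (hQ l hl).2.1⟩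
        have := Finset.card_le_card this
        rwa [Nat.card_Icc, Nat.add_sub_cancel] at this
      set X : ℝ := ∑ l ∈ Q, ((Ω l).card : ℝ) with hX
      have hX0 : 0 ≤ X := Finset.sum_nonneg fun l _ => Nat.cast_nonneg _
      have hX1 : X ≤ 3 * y := by
        calc X ≤ ∑ l ∈ Q, (3 : ℝ) := Finset.sum_le_sum fun l hl => by
              exact_mod_cast (hQ l hl).2.2
          _ = 3 * (Q.card : ℝ) := by rw [Finset.sum_const, nsmul_eq_mul, mul_comm]
          _ ≤ 3 * y := by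
              have : (Q.card : ℝ) ≤ y := by exact_mod_cast hcard
              linarith only [this]
      rw [sum_powerset_card_le]
      calc ∑ i ∈ range (2 * b + 1), ∑ D ∈ Q.powersetCard i, ∏ l ∈ D, ((Ω l).card : ℝ) ≤
          ∑ i ∈ range (2 * b + 1), X ^ i * 1 ^ (2 * b - i) * ((2 * b).choose i : ℝ) := by
            refine Finset.sum_le_sum fun i hi => ?_
            have hi' : i ≤ 2 * b := by have := Finset.mem_range.1 hi; omega
            have h1 := bonE_le (fun l => ((Ω l).card : ℝ)) Q (fun l _ => Nat.cast_nonneg _) i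
            unfold bonE at h1
            refine h1.trans ?_
            rw [one_pow, mul_one]
            have hf : (1 : ℝ) ≤ (i.factorial : ℝ) := by
              exact_mod_cast Nat.succ_le_of_lt (Nat.factorial_pos i)
            have hc : (1 : ℝ) ≤ ((2 * b).choose i : ℝ) := by
              exact_mod_cast Nat.succ_le_of_lt (Nat.choose_pos hi')
            have hXi : 0 ≤ X ^ i := pow_nonneg hX0 i
            calc X ^ i / (i.factorial : ℝ) ≤ X ^ i := div_le_self hXi hf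
              _ ≤ X ^ i * ((2 * b).choose i : ℝ) := le_mul_of_one_le_right hXi hc
        _ = (X + 1) ^ (2 * b) := by rw [add_pow]
        _ ≤ ((y : ℝ) ^ 2) ^ (2 * b) := by
            refine pow_le_pow_left₀ (by linarith only [hX0]) ?_ _
            have h7r : (7 : ℝ) ≤ y := by exact_mod_cast h7
            nlinarith only [hX1, h7r]
        _ = (y : ℝ) ^ (4 * b) := by rw [← pow_mul]; congr 1; ring

theorem sz_geom (b0 J : ℕ) : ∑ j ∈ range J, ((b0 + j : ℕ) : ℝ) / 2 ^ j =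
    2 * b0 + 2 - (2 * b0 + 2 * J + 2) / 2 ^ J := by
  induction J with
  | zero => simp
  | succ J ih =>
    rw [Finset.sum_range_succ, ih]
    have : (0 : ℝ) < 2 ^ J := by positivity
    rw [pow_succ]
    push_cast
    field_simp
    ring

theorem sz_prod (z b0 J : ℕ) (hz : 1 ≤ z) :
    ∏ j ∈ range J, ((sz z j : ℝ)) ^ (4 * (b0 + j)) ≤ (z : ℝ) ^ (8 * b0 + 8) := by
  have hzr : (1 : ℝ) ≤ z := by exact_mod_cast hz
  have hlog : 0 ≤ Real.log z := Real.log_nonneg hzr
  have h1 : ∀ j ∈ range J, ((sz z j : ℝ)) ^ (4 * (b0 + j)) ≤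
      Real.exp (4 * Real.log z * (((b0 + j : ℕ) : ℝ) / 2 ^ j)) := by
    intro j _
    have hs : (1 : ℝ) ≤ sz z j := by exact_mod_cast sz_pos z hz j
    have hp : ((sz z j : ℝ)) ^ (2 ^ j) ≤ z := by exact_mod_cast sz_pow z j
    have h2 : Real.log ((sz z j : ℝ) ^ (2 ^ j)) ≤ Real.log z :=
      Real.log_le_log (by positivity) hp
    rw [Real.log_pow] at h2
    push_cast at h2
    have h2j : (0 : ℝ) < 2 ^ j := by positivity
    have h3 : Real.log (sz z j) ≤ Real.log z / 2 ^ j := by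
      rw [le_div_iff₀ h2j, mul_comm]; exact h2
    have h4 : ((sz z j : ℝ)) ^ (4 * (b0 + j)) =
        Real.exp (((4 * (b0 + j) : ℕ) : ℝ) * Real.log (sz z j)) := by
      rw [← Real.log_pow, Real.exp_log (by positivity)]
    rw [h4]
    refine Real.exp_le_exp.2 ?_
    calc ((4 * (b0 + j) : ℕ) : ℝ) * Real.log (sz z j) ≤
        ((4 * (b0 + j) : ℕ) : ℝ) * (Real.log z / 2 ^ j) :=
          mul_le_mul_of_nonneg_left h3 (Nat.cast_nonneg _)
      _ = 4 * Real.log z * (((b0 + j : ℕ) : ℝ) / 2 ^ j) := by push_cast; ring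
  calc ∏ j ∈ range J, ((sz z j : ℝ)) ^ (4 * (b0 + j)) ≤
      ∏ j ∈ range J, Real.exp (4 * Real.log z * (((b0 + j : ℕ) : ℝ) / 2 ^ j)) :=
        Finset.prod_le_prod (fun j _ => by positivity) h1
    _ = Real.exp (4 * Real.log z * ∑ j ∈ range J, ((b0 + j : ℕ) : ℝ) / 2 ^ j) := by
        rw [← Real.exp_sum, Finset.mul_sum]
    _ ≤ Real.exp (((8 * b0 + 8 : ℕ) : ℝ) * Real.log z) := by
        refine Real.exp_le_exp.2 ?_
        rw [sz_geom]
        have h5 : (0 : ℝ) ≤ (2 * b0 + 2 * J + 2) / 2 ^ J := by positivity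
        push_cast
        nlinarith only [mul_nonneg hlog h5]
    _ = (z : ℝ) ^ (8 * b0 + 8) := by
        rw [← Real.log_pow, Real.exp_log (by positivity)]

theorem sz_prod_exp (J : ℕ) : ∏ j ∈ range J, (1 + (1 / 2 : ℝ) ^ j) ≤ Real.exp 2 := by
  calc ∏ j ∈ range J, (1 + (1 / 2 : ℝ) ^ j) ≤ ∏ j ∈ range J, Real.exp ((1 / 2 : ℝ) ^ j) := by
        refine Finset.prod_le_prod (fun j _ => by positivity) fun j _ => ?_
        have := Real.add_one_le_exp ((1 / 2 : ℝ) ^ j)
        linarith only [this]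
    _ = Real.exp (∑ j ∈ range J, (1 / 2 : ℝ) ^ j) := by rw [Real.exp_sum]
    _ ≤ Real.exp 2 := by
        refine Real.exp_le_exp.2 ?_
        rw [geom_sum_eq (by norm_num)]
        have : (0 : ℝ) < (1 / 2) ^ J := by positivity
        rw [div_le_iff_of_neg (by norm_num)]
        linarith only [this]

theorem st_SIEVE (hBH : ST_BH) (hMER : ST_MER) : ST_SIEVE := by
  obtain ⟨CM, hCM, hM⟩ := hMER
  obtain ⟨b0, hb0⟩ := sz_b0 (3 * (Real.log 4 + CM))
  refine ⟨8 * b0 + 11, Real.exp 2 + Real.exp (3 * CM), by omega, by positivity, ?_⟩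
  intro z N P Ω hz hN hP S hS
  set g : ℕ → ℝ := fun l => ((Ω l).card : ℝ) / l with hg
  have hg3 : ∀ l ∈ P, l.Prime ∧ 7 ≤ l ∧ l ≤ z ∧ g l ≤ 3 / l := by
    intro l hl
    obtain ⟨h1, h2, h3, h4⟩ := hP l hl
    refine ⟨h1, h2, h3, ?_⟩
    have : ((Ω l).card : ℝ) ≤ 3 := by exact_mod_cast h4
    exact div_le_div_of_nonneg_right this (Nat.cast_nonneg _)
  have hg01 : ∀ l ∈ P, 0 ≤ g l ∧ g l ≤ 1 := by
    intro l hl
    refine ⟨by positivity, (hg3 l hl).2.2.2.trans ?_⟩
    have h7 : (7 : ℝ) ≤ l := by exact_mod_cast (hg3 l hl).2.1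
    rw [div_le_one (by linarith only [h7])]
    linarith only [h7]
  have hcov := szP_cover P z fun l hl => ⟨(hP l hl).2.1, (hP l hl).2.2.1⟩
  have hsub : ∀ j, ∀ l ∈ szP P z j, l ∈ P := fun j l hl => (Finset.mem_filter.1 hl).1
  have hmain := hBH N z (szP P z) (fun j => b0 + j) Ω
    (fun j _ l hl => (hP l (hsub j l hl)).1) (fun i _ j _ hij => szP_disj P z i j hij) S
    (fun t ht => ⟨(hS t ht).1, fun j _ l hl => (hS t ht).2 l (hsub j l hl)⟩)
  have hfac : ∀ j ∈ range z, 0 ≤ bonA g (szP P z j) (2 * (b0 + j)) ∧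
      bonA g (szP P z j) (2 * (b0 + j)) ≤
        Real.exp (-∑ l ∈ szP P z j, g l) * (1 + (1 / 2) ^ j) := fun j _ =>
    sz_main (3 * (Real.log 4 + CM)) (szP P z j) g (b0 + j) j
      (fun l hl => hg01 l (hsub j l hl)) (sz_L CM hCM hM z P g hg3 j) (hb0 j)
  have hsum : ∑ j ∈ range z, ∑ l ∈ szP P z j, g l = ∑ l ∈ P, g l := by
    conv_rhs => rw [hcov]
    rw [Finset.sum_biUnion]
    intro i _ j _ hij
    exact szP_disj P z i j hij
  have hM1 : ∏ j ∈ range z, (∑ D ∈ (szP P z j).powerset.filter (fun D => D.card ≤ 2 * (b0 + j)),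
      ∏ l ∈ D, (-(((Ω l).card : ℝ) / l))) ≤ Real.exp (-∑ l ∈ P, g l) * Real.exp 2 := by
    calc ∏ j ∈ range z, (∑ D ∈ (szP P z j).powerset.filter (fun D => D.card ≤ 2 * (b0 + j)),
        ∏ l ∈ D, (-(((Ω l).card : ℝ) / l))) =
        ∏ j ∈ range z, bonA g (szP P z j) (2 * (b0 + j)) :=
          Finset.prod_congr rfl fun j _ => bonA_eq g (szP P z j) (2 * (b0 + j))
      _ ≤ ∏ j ∈ range z, (Real.exp (-∑ l ∈ szP P z j, g l) * (1 + (1 / 2) ^ j)) :=
          Finset.prod_le_prod (fun j hj => (hfac j hj).1) fun j hj => (hfac j hj).2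
      _ = Real.exp (-∑ l ∈ P, g l) * ∏ j ∈ range z, (1 + (1 / 2 : ℝ) ^ j) := by
          rw [Finset.prod_mul_distrib, ← Real.exp_sum, Finset.sum_neg_distrib, hsum]
      _ ≤ Real.exp (-∑ l ∈ P, g l) * Real.exp 2 :=
          mul_le_mul_of_nonneg_left (sz_prod_exp z) (Real.exp_pos _).le
  have hR1 : ∏ j ∈ range z, (∑ D ∈ (szP P z j).powerset.filter (fun D => D.card ≤ 2 * (b0 + j)),
      ∏ l ∈ D, ((Ω l).card : ℝ)) ≤ (z : ℝ) ^ (8 * b0 + 8) := by
    refine le_trans ?_ (sz_prod z b0 z (by omega))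
    have he : ∀ j ∈ range z, _ := fun j _ =>
      sz_err Ω (szP P z j) (sz z j) (b0 + j) (sz_pos z (by omega) j) (fun l hl =>
        ⟨(hP l (hsub j l hl)).2.1, (Finset.mem_filter.1 hl).2.2, (hP l (hsub j l hl)).2.2.2⟩)
    exact Finset.prod_le_prod (fun j hj => (he j hj).1) fun j hj => (he j hj).2
  -- the exponential of the whole sum
  have hz2 : (2 : ℝ) ≤ z := by exact_mod_cast hz
  have hexp : Real.exp (∑ l ∈ P, g l) ≤ Real.exp (3 * CM) * (z : ℝ) ^ 3 := by
    have hsubP : P ⊆ PP 2 z := by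
      intro l hl
      unfold PP
      rw [Finset.mem_filter, Finset.mem_Ioc]
      exact ⟨⟨by have := (hP l hl).2.1; omega, (hP l hl).2.2.1⟩, (hP l hl).1⟩
    have hm := (abs_le.1 (hM 2 z le_rfl hz)).2
    have h1 : ∑ l ∈ P, g l ≤ 3 * (LL 2 z + CM) := by
      calc ∑ l ∈ P, g l ≤ ∑ l ∈ P, 3 * (1 / (l : ℝ)) := by
            refine Finset.sum_le_sum fun l hl => ?_
            have := (hg3 l hl).2.2.2
            rwa [mul_one_div]
        _ ≤ ∑ l ∈ PP 2 z, 3 * (1 / (l : ℝ)) :=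
            Finset.sum_le_sum_of_subset_of_nonneg hsubP fun l _ _ => by positivity
        _ = 3 * ∑ l ∈ PP 2 z, (1 / (l : ℝ)) := by rw [Finset.mul_sum]
        _ ≤ 3 * (LL 2 z + CM) := by linarith only [hm]
    have h2 : LL 2 z ≤ Real.log z := by
      unfold LL
      have hl2 : 0 < Real.log ((2 : ℕ) : ℝ) := Real.log_pos (by norm_num)
      have hlz : 0 < Real.log (z : ℝ) := Real.log_pos (by linarith only [hz2])
      refine Real.log_le_log (div_pos hlz hl2) ?_
      rw [div_le_iff₀ hl2]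
      have h3 : (z : ℝ) ≤ 2 ^ z := by exact_mod_cast (Nat.lt_two_pow_self).le
      have h4 := Real.log_le_log (by linarith only [hz2]) h3
      rw [Real.log_pow] at h4
      push_cast
      exact h4
    calc Real.exp (∑ l ∈ P, g l) ≤ Real.exp (3 * CM + ((3 : ℕ) : ℝ) * Real.log z) := by
          refine Real.exp_le_exp.2 ?_
          push_cast
          linarith only [h1, h2]
      _ = Real.exp (3 * CM) * (z : ℝ) ^ 3 := by
          rw [Real.exp_add, ← Real.log_pow, Real.exp_log (by positivity)]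
  have hNr : (z : ℝ) ^ (8 * b0 + 11) ≤ N := by exact_mod_cast hN
  have hR2 : (z : ℝ) ^ (8 * b0 + 8) ≤ Real.exp (3 * CM) * N * Real.exp (-∑ l ∈ P, g l) := by
    rw [Real.exp_neg, ← div_eq_mul_inv, le_div_iff₀ (Real.exp_pos _)]
    calc (z : ℝ) ^ (8 * b0 + 8) * Real.exp (∑ l ∈ P, g l) ≤
        (z : ℝ) ^ (8 * b0 + 8) * (Real.exp (3 * CM) * (z : ℝ) ^ 3) :=
          mul_le_mul_of_nonneg_left hexp (by positivity)
      _ = Real.exp (3 * CM) * (z : ℝ) ^ (8 * b0 + 11) := by ring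
      _ ≤ Real.exp (3 * CM) * N := mul_le_mul_of_nonneg_left hNr (Real.exp_pos _).le
  calc (S.card : ℝ) ≤ _ := hmain
    _ ≤ N * (Real.exp (-∑ l ∈ P, g l) * Real.exp 2) +
        Real.exp (3 * CM) * N * Real.exp (-∑ l ∈ P, g l) :=
        add_le_add (mul_le_mul_of_nonneg_left hM1 (Nat.cast_nonneg _)) (hR1.trans hR2)
    _ = (Real.exp 2 + Real.exp (3 * CM)) * N * Real.exp (-∑ l ∈ P, ((Ω l).card : ℝ) / l) := by
        rw [hg]; ring

end Pool.Agent.Helper17.SO
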